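import Pool.Agent.Helper62.BM.LStm
import Pool.Agent.Helper72.BM.Mat

/-!
# Package L14 (L_E): the eigenvalues at infinity
-/

set_option autoImplicit false

open Polynomial Matrix Finset

namespace Pool.Agent.Helper41.BL

open Pool.Agent.Helper62.BM Pool.Agent.Helper72.BM

variable {F : Type} [Field F] {g : ℕ} {f : F[X]} {lam : F} {c : Fin (2 * g) → F}

/-- The polynomial with the coordinates `y` in the basis `b_j`. -/
noncomputable def pol {n : ℕ} (c : Fin n → F) (y : Fin n → F) : F[X] := ∑ j, C (y j) * bp c j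

lemma pol_eval {n : ℕ} (c : Fin n → F) (y : Fin n → F) (i : Fin n) :
    (pol c y).eval (c i) = y i * dd c i := by
  rw [pol, eval_finsetSum, Finset.sum_eq_single i]
  · rw [eval_mul, eval_C, bp_eval, if_pos rfl]
  · intro j _ hj
    rw [eval_mul, eval_C, bp_eval, if_neg (Ne.symm hj), mul_zero]
  · intro h
    exact absurd (Finset.mem_univ i) h

lemma pol_degree {n : ℕ} (c : Fin n → F) (y : Fin n → F) : (pol c y).degree < n := by
  rw [pol, ← mem_degreeLT]
  refine Submodule.sum_mem _ fun j _ => mem_degreeLT.2 ?_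
  have h1 : (C (y j) * bp c j).degree ≤ (bp c j).degree := by
    refine (degree_mul_le _ _).trans ?_
    calc (C (y j)).degree + (bp c j).degree ≤ 0 + (bp c j).degree := by
          gcongr
          exact degree_C_le
      _ = _ := zero_add _
  have h2 : (bp c j).degree < n := by
    refine degree_le_natDegree.trans_lt ?_
    exact_mod_cast bp_natDegree c j
  exact h1.trans_lt h2

lemma pol_natDegree {n : ℕ} (hn : 0 < n) (c : Fin n → F) (y : Fin n → F) :
    (pol c y).natDegree < n := by
  by_cases h : pol c y = 0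
  · rw [h]
    simpa using hn
  · exact (natDegree_lt_iff_degree_lt h).2 (pol_degree c y)

lemma pol_inj {n : ℕ} {c : Fin n → F} (hc : Function.Injective c) {y : Fin n → F}
    (h : pol c y = 0) : y = 0 := by
  funext i
  have h1 := pol_eval c y i
  rw [h, eval_zero] at h1
  exact (mul_eq_zero.1 h1.symm).resolve_right (dd_ne hc i)

lemma pol_add {n : ℕ} (c : Fin n → F) (y z : Fin n → F) : pol c (y + z) = pol c y + pol c z := by
  rw [pol, pol, pol, ← Finset.sum_add_distrib]
  exact Finset.sum_congr rfl fun j _ => by rw [Pi.add_apply, C_add, add_mul]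

lemma pol_smul {n : ℕ} (c : Fin n → F) (a : F) (y : Fin n → F) :
    pol c (a • y) = C a * pol c y := by
  rw [pol, pol, Finset.mul_sum]
  exact Finset.sum_congr rfl fun j _ => by rw [Pi.smul_apply, smul_eq_mul, C_mul, mul_assoc]

/-- Two polynomials of small degree with the same values at the `c_i`. -/
lemma ext_eval {n : ℕ} {c : Fin n → F} (hc : Function.Injective c) {p q : F[X]}
    (hp : p.degree < n) (hq : q.degree < n) (h : ∀ i, p.eval (c i) = q.eval (c i)) : p = q := by
  refine Polynomial.eq_of_degrees_lt_of_eval_index_eq (s := (univ : Finset (Fin n))) (v := c)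
    (fun a _ b _ hab => hc hab) ?_ ?_ fun i _ => h i
  · rwa [Finset.card_univ, Fintype.card_fin]
  · rwa [Finset.card_univ, Fintype.card_fin]

/-- `γ_j = (f - v_j) / (X - c_j)`. -/
noncomputable def gam (f : F[X]) {n : ℕ} (c : Fin n → F) (j : Fin n) : F[X] :=
  (f - C (f.eval (c j))) /ₘ (X - C (c j))

lemma gam_mul (f : F[X]) {n : ℕ} (c : Fin n → F) (j : Fin n) :
    (X - C (c j)) * gam f c j = f - C (f.eval (c j)) := by
  rw [gam, mul_divByMonic_eq_iff_isRoot]
  simp

lemma crit_eval (hC : Crit g f lam c) (i : Fin (2 * g)) : (derivative f).eval (c i) = 0 := by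
  rw [hC.2.1, eval_mul, eval_prod, Finset.prod_eq_zero (Finset.mem_univ i), mul_zero]
  simp

lemma crit_eval2 (hC : Crit g f lam c) (i : Fin (2 * g)) :
    (derivative (derivative f)).eval (c i) = lam * dd c i := by
  rw [hC.2.1, derivative_C_mul, eval_mul, eval_C]
  congr 1
  have := Lagrange.eval_nodal_derivative_eval_node_eq (s := (univ : Finset (Fin (2 * g)))) (v := c)
    (Finset.mem_univ i)
  rw [Lagrange.eval_nodal (s := univ.erase i)] at this
  exact this

lemma gam_der (hC : Crit g f lam c) (i j : Fin (2 * g)) (hij : i ≠ j) :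
    (derivative (gam f c j)).eval (c i) =
      -(f.eval (c i) - f.eval (c j)) / (c i - c j) ^ 2 := by
  have hne : c i - c j ≠ 0 := sub_ne_zero.2 fun h => hij (hC.2.2.1 h)
  have h1 := congrArg (fun p => p.eval (c i)) (gam_mul f c j)
  have h2 := congrArg (fun p => (derivative p).eval (c i)) (gam_mul f c j)
  simp only [derivative_mul, derivative_sub, derivative_X, derivative_C, sub_zero, one_mul,
    eval_add, eval_mul, eval_sub, eval_X, eval_C, crit_eval hC] at h1 h2
  rw [eq_div_iff (pow_ne_zero _ hne)]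
  linear_combination (c i - c j) * h2 - h1

lemma gam_der' (hC : Crit g f lam c) (j : Fin (2 * g)) :
    2 * (derivative (gam f c j)).eval (c j) = lam * dd c j := by
  have h2 := congrArg (fun p => (derivative (derivative p)).eval (c j)) (gam_mul f c j)
  simp only [derivative_mul, derivative_sub, derivative_add, derivative_X, derivative_C, sub_zero,
    one_mul, eval_add, eval_mul, eval_sub, eval_X, eval_C, crit_eval2 hC, sub_self, zero_mul,
    add_zero] at h2
  linear_combination h2

lemma gam_natDegree (hC : Crit g f lam c) (j : Fin (2 * g)) : (gam f c j).natDegree = 2 * g := by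
  rw [gam, natDegree_divByMonic _ (monic_X_sub_C _), natDegree_X_sub_C, natDegree_sub_C, hC.1]
  rfl

lemma gam_ne (hC : Crit g f lam c) (j : Fin (2 * g)) : gam f c j ≠ 0 := by
  intro h
  have h1 := gam_natDegree hC j
  rw [h, natDegree_zero] at h1
  have := j.2
  omega

/-- The polynomial `β_u`. -/
noncomputable def bet (f : F[X]) (lam : F) {n : ℕ} (c : Fin n → F) (y : Fin n → F) : F[X] :=
  ∑ j, C (y j) * (C lam⁻¹ * gam f c j)

/-- `β_u f' = f u - ∑ y_j v_j b_j`. -/
lemma bet_mul (hC : Crit g f lam c) (hl : lam ≠ 0) (y : Fin (2 * g) → F) :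
    bet f lam c y * derivative f = f * pol c y - pol c fun j => y j * f.eval (c j) := by
  have key : ∀ j, C lam⁻¹ * gam f c j * derivative f = (f - C (f.eval (c j))) * bp c j := by
    intro j
    rw [hC.2.1, ← gam_mul f c j, bp, ← Finset.mul_prod_erase univ _ (Finset.mem_univ j)]
    have : (C lam⁻¹ : F[X]) * C lam = 1 := by rw [← C_mul, inv_mul_cancel₀ hl, C_1]
    linear_combination (gam f c j * ((X - C (c j)) * ∏ x ∈ univ.erase j, (X - C (c x)))) * this
  rw [bet, pol, pol, Finset.sum_mul, Finset.mul_sum, ← Finset.sum_sub_distrib]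
  refine Finset.sum_congr rfl fun j _ => ?_
  rw [mul_assoc, key, C_mul]
  ring

/-- The operator `R`. -/
lemma R_col (hC : Crit g f lam c) (hl : lam ≠ 0) (h2 : (2 : F) ≠ 0) (j : Fin (2 * g)) :
    (pol c fun i => Rq (Qc f c) (kc lam c) i j) =
      C lam⁻¹ * derivative (gam f c j) - C (2⁻¹) * bp c j := by
  refine ext_eval hC.2.2.1 (pol_degree _ _) ?_ fun i => ?_
  · refine (degree_sub_le _ _).trans_lt (max_lt ?_ ?_)
    · refine (degree_mul_le _ _).trans_lt ?_
      rw [degree_C (inv_ne_zero hl), zero_add]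
      refine (degree_derivative_lt (gam_ne hC j)).trans_le ?_
      rw [degree_eq_natDegree (gam_ne hC j), gam_natDegree hC]
    · refine (degree_mul_le _ _).trans_lt ?_
      rw [degree_C (inv_ne_zero h2), zero_add]
      refine degree_le_natDegree.trans_lt ?_
      exact_mod_cast bp_natDegree c j
  · rw [pol_eval, eval_sub, eval_mul, eval_mul, eval_C, eval_C, bp_eval]
    have hk : kc lam c j = lam⁻¹ * dd c j := rfl
    rw [Rq, Matrix.of_apply, Qc, Matrix.of_apply, hk]
    split_ifs with hij
    · subst hij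
      have := gam_der' hC i
      field_simp
      linear_combination (-1 : F) * this
    · rw [gam_der hC i j hij, wt_eq, wt_eq]
      have hi := dd_ne hC.2.2.1 i
      have hj := dd_ne hC.2.2.1 j
      have hne : c i - c j ≠ 0 := sub_ne_zero.2 fun h => hij (hC.2.2.1 h)
      field_simp
      ring

lemma R_pol (hC : Crit g f lam c) (hl : lam ≠ 0) (h2 : (2 : F) ≠ 0) (y : Fin (2 * g) → F) :
    pol c (Rq (Qc f c) (kc lam c) *ᵥ y) =
      derivative (bet f lam c y) - C (2⁻¹) * pol c y := by
  have h1 : pol c (Rq (Qc f c) (kc lam c) *ᵥ y) =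
      ∑ j, C (y j) * pol c (fun i => Rq (Qc f c) (kc lam c) i j) := by
    simp only [pol, Matrix.mulVec, dotProduct, map_sum, Finset.sum_mul, Finset.mul_sum, C_mul]
    rw [Finset.sum_comm]
    exact Finset.sum_congr rfl fun j _ => Finset.sum_congr rfl fun i _ => by ring
  rw [h1, bet, pol, derivative_sum, Finset.mul_sum, ← Finset.sum_sub_distrib]
  refine Finset.sum_congr rfl fun j _ => ?_
  rw [R_col hC hl h2, derivative_C_mul, derivative_C_mul]
  ring

lemma lam_eq (hC : Crit g f lam c) : lam = f.coeff (2 * g + 1) * (2 * g + 1 : F) := by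
  have h1 := coeff_derivative f (2 * g)
  have h3 : (∏ j, (X - C (c j))).natDegree = 2 * g := by
    have := Lagrange.natDegree_nodal (s := (univ : Finset (Fin (2 * g)))) (v := c)
    rw [Finset.card_univ, Fintype.card_fin] at this
    exact this
  have h4 : (∏ j, (X - C (c j))).Monic := monic_prod_of_monic _ _ fun j _ => monic_X_sub_C (c j)
  rw [hC.2.1, coeff_C_mul] at h1
  have h5 : (∏ j, (X - C (c j))).coeff (2 * g) = 1 := by
    have := h4
    rw [Monic, leadingCoeff, h3] at this
    exact this
  rw [h5, mul_one] at h1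
  rw [h1]
  push_cast
  ring

/-- The operator is triangular with respect to the degree. -/
lemma R_tri (hC : Crit g f lam c) (hl : lam ≠ 0) (h2 : (2 : F) ≠ 0) (y : Fin (2 * g) → F) (l : ℕ)
    (hy : (pol c y).natDegree ≤ l) :
    (pol c (Rq (Qc f c) (kc lam c) *ᵥ y)).natDegree ≤ l ∧
      (pol c (Rq (Qc f c) (kc lam c) *ᵥ y)).coeff l =
        (((l : F) + 1) / (2 * g + 1) - 2⁻¹) * (pol c y).coeff l := by
  have hlam := lam_eq hC
  have hn : (2 * g + 1 : F) ≠ 0 := fun h => hl (by rw [hlam, h, mul_zero])
  have hfn : f.coeff (2 * g + 1) ≠ 0 := fun h => hl (by rw [hlam, h, zero_mul])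
  have hd : (derivative f).natDegree = 2 * g := by
    rw [hC.2.1, natDegree_C_mul hl]
    have := Lagrange.natDegree_nodal (s := (univ : Finset (Fin (2 * g)))) (v := c)
    rw [Finset.card_univ, Fintype.card_fin] at this
    exact this
  have hd0 : derivative f ≠ 0 := by
    rw [hC.2.1]
    exact mul_ne_zero (C_ne_zero.2 hl) (monic_prod_of_monic _ _ fun j _ => monic_X_sub_C (c j)).ne_zero
  have hdc : (derivative f).coeff (2 * g) = lam := by
    rw [coeff_derivative, hlam]
    push_cast
    ring
  have h1 := bet_mul hC hl y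
  have hw : (pol c fun j => y j * f.eval (c j)).degree < (2 * g : ℕ) := pol_degree _ _
  have hw' : (pol c fun j => y j * f.eval (c j)).natDegree ≤ 2 * g :=
    natDegree_le_of_degree_le hw.le
  have hwc : (pol c fun j => y j * f.eval (c j)).coeff (2 * g + 1 + l) = 0 :=
    coeff_eq_zero_of_degree_lt (hw.trans (by exact_mod_cast (by omega : 2 * g < 2 * g + 1 + l)))
  have hfd : f.natDegree ≤ 2 * g + 1 := hC.1.le
  have hβ : (bet f lam c y).natDegree ≤ l + 1 := by
    by_cases hb : bet f lam c y = 0
    · rw [hb]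
      simp
    · have h3 : (bet f lam c y * derivative f).natDegree ≤ 2 * g + 1 + l := by
        rw [h1]
        refine (natDegree_sub_le _ _).trans (max_le ?_ ?_)
        · exact natDegree_mul_le.trans (by omega)
        · omega
      rw [natDegree_mul hb hd0, hd] at h3
      omega
  have hβc : (bet f lam c y).coeff (l + 1) * lam = f.coeff (2 * g + 1) * (pol c y).coeff l := by
    have h3 := congrArg (fun p => p.coeff (2 * g + 1 + l)) h1
    simp only [coeff_sub] at h3
    rw [hwc, sub_zero, coeff_mul_add_eq_of_natDegree_le hfd hy] at h3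
    rw [← h3, show 2 * g + 1 + l = (l + 1) + 2 * g by omega,
      coeff_mul_add_eq_of_natDegree_le hβ hd.le, hdc]
  rw [R_pol hC hl h2]
  constructor
  · refine (natDegree_sub_le _ _).trans (max_le ?_ ?_)
    · exact (natDegree_derivative_le _).trans (by omega)
    · exact (natDegree_C_mul_le _ _).trans hy
  · rw [coeff_sub, coeff_derivative, coeff_C_mul]
    have h3 : (bet f lam c y).coeff (l + 1) = (pol c y).coeff l / (2 * g + 1) := by
      rw [eq_div_iff hn]
      have h4 : f.coeff (2 * g + 1) * ((bet f lam c y).coeff (l + 1) * (2 * g + 1 : F)) =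
          f.coeff (2 * g + 1) * (pol c y).coeff l := by
        rw [← hβc, hlam]
        ring
      exact mul_left_cancel₀ hfn h4
    rw [h3]
    field_simp

lemma cast_ne {p : ℕ} [CharP F p] {a : ℤ} (h0 : a ≠ 0) (h1 : |a| < p) : (a : F) ≠ 0 := by
  intro h
  rw [CharP.intCast_eq_zero_iff F p] at h
  exact h0 (Int.eq_zero_of_abs_lt_dvd h h1)

theorem l_E : L_E := by
  intro F _ p hp _ g f lam c hC hl m hm
  have hp' := hp.out
  have h2 : (2 : F) ≠ 0 := by
    have : ((2 : ℤ) : F) ≠ 0 := cast_ne (p := p) (by norm_num) (by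
      rw [abs_of_pos (by norm_num)]
      have : 2 < p := by nlinarith
      exact_mod_cast this)
    exact_mod_cast this
  have hlam := lam_eq hC
  have hn : (2 * g + 1 : F) ≠ 0 := fun h => hl (by rw [hlam, h, mul_zero])
  have hm' : 2 * (2 * (g : ℤ) + 1) * (m + 1) < p := by exact_mod_cast hm
  rcases Nat.eq_zero_or_pos g with hg | hg
  · subst hg
    refine ⟨fun y _ => ?_, fun _ Y _ => ?_⟩
    · funext i
      exact absurd i.2 (by omega)
    · ext i
      exact absurd i.2 (by omega)
  refine ⟨fun y hy => ?_, fun hm1 Y hY => ?_⟩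
  · by_contra hne
    have hu : pol c y ≠ 0 := fun h => hne (pol_inj hC.2.2.1 h)
    obtain ⟨-, h3⟩ := R_tri hC hl h2 y _ le_rfl
    have h4 := pol_natDegree (by omega) c y
    set l := (pol c y).natDegree with hld
    have h5 := congrArg (fun z => (pol c z).coeff l) hy
    simp only [pol_add, pol_smul, coeff_add, coeff_C_mul] at h5
    rw [h3] at h5
    have h6 : (pol c (0 : Fin (2 * g) → F)) = 0 := by simp [pol]
    rw [h6, coeff_zero] at h5
    have h7 : (pol c y).coeff l ≠ 0 := by
      rw [hld]
      exact leadingCoeff_ne_zero.2 hu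
    have h8 : ((m : F) + (((l : F) + 1) / (2 * g + 1) - 2⁻¹)) = 0 := by
      have : ((m : F) + (((l : F) + 1) / (2 * g + 1) - 2⁻¹)) * (pol c y).coeff l = 0 := by
        linear_combination h5
      exact (mul_eq_zero.1 this).resolve_right h7
    have h9 : ((2 * (2 * (g : ℤ) + 1) * m + 2 * (l + 1) - (2 * g + 1) : ℤ) : F) = 0 := by
      push_cast
      field_simp at h8
      linear_combination h8
    refine cast_ne (p := p) (F := F) ?_ ?_ h9
    · have ht : 2 * (2 * (g : ℤ) + 1) * m = 2 * ((2 * (g : ℤ) + 1) * m) := by ring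
      rw [ht]
      generalize (2 * (g : ℤ) + 1) * m = t
      omega
    · have hlz : (l : ℤ) < 2 * g := by exact_mod_cast h4
      have hmz : (0 : ℤ) ≤ 2 * (2 * (g : ℤ) + 1) * m := by positivity
      rw [abs_lt]
      constructor <;> nlinarith
  · by_contra hne
    obtain ⟨y0, hy0⟩ : ∃ y, Y *ᵥ y ≠ 0 := by
      by_contra hcon
      push Not at hcon
      refine hne ?_
      ext i j
      have := congrFun (hcon (Pi.single j 1)) i
      rw [Matrix.mulVec_single_one] at this
      exact this
    have hex : ∃ l, ∃ y, Y *ᵥ y ≠ 0 ∧ (pol c y).natDegree = l := ⟨_, y0, hy0, rfl⟩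
    classical
    obtain ⟨y, hy, hyl⟩ := Nat.find_spec hex
    set l := Nat.find hex with hldef
    have hmin : ∀ z, (pol c z).natDegree < l → Y *ᵥ z = 0 := by
      intro z hz
      by_contra hcon
      exact Nat.find_min hex hz ⟨z, hcon, rfl⟩
    obtain ⟨h3, h4⟩ := R_tri hC hl h2 y l hyl.le
    set ρ : F := ((l : F) + 1) / (2 * g + 1) - 2⁻¹ with hρ
    set R := Rq (Qc f c) (kc lam c) with hR
    -- `Y` kills the lower part of `R y`
    have h5 : Y *ᵥ (R *ᵥ y + (-ρ) • y) = 0 := by
      have h6 : (pol c (R *ᵥ y + (-ρ) • y)).natDegree ≤ l := by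
        rw [pol_add, pol_smul]
        refine (natDegree_add_le _ _).trans (max_le h3 ?_)
        exact (natDegree_C_mul_le _ _).trans hyl.le
      have h7 : (pol c (R *ᵥ y + (-ρ) • y)).coeff l = 0 := by
        rw [pol_add, pol_smul, coeff_add, coeff_C_mul, h4]
        ring
      by_cases h8 : pol c (R *ᵥ y + (-ρ) • y) = 0
      · rw [pol_inj hC.2.2.1 h8, Matrix.mulVec_zero]
      · refine hmin _ (lt_of_le_of_ne h6 fun h9 => ?_)
        have := leadingCoeff_ne_zero.2 h8
        rw [leadingCoeff, h9, h7] at this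
        exact this rfl
    have h6 : Y *ᵥ (R *ᵥ y) = ρ • (Y *ᵥ y) := by
      rw [Matrix.mulVec_add, Matrix.mulVec_smul, neg_smul, ← sub_eq_add_neg, sub_eq_zero] at h5
      exact h5
    have h7 : (m : F) • (Y *ᵥ y) + R *ᵥ (Y *ᵥ y) = ρ • (Y *ᵥ y) := by
      have h8 := congrArg (fun M => M *ᵥ y) hY
      simp only [Matrix.sub_mulVec, Matrix.add_mulVec, Matrix.smul_mulVec, Matrix.zero_mulVec,
        ← Matrix.mulVec_mulVec] at h8
      rw [← h6]
      rw [sub_eq_zero] at h8
      exact h8
    set z := Y *ᵥ y with hz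
    have hu : pol c z ≠ 0 := fun h => hy (pol_inj hC.2.2.1 h)
    obtain ⟨-, h8⟩ := R_tri hC hl h2 z _ le_rfl
    have h9 := pol_natDegree (by omega) c z
    have hly := pol_natDegree (by omega) c y
    rw [hyl] at hly
    set l' := (pol c z).natDegree with hld
    have h10 := congrArg (fun z => (pol c z).coeff l') h7
    simp only [pol_add, pol_smul, coeff_add, coeff_C_mul] at h10
    rw [h8] at h10
    have h11 : (pol c z).coeff l' ≠ 0 := by
      rw [hld]
      exact leadingCoeff_ne_zero.2 hu
    have h12 : (m : F) + (((l' : F) + 1) / (2 * g + 1) - 2⁻¹) - ρ = 0 := by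
      have : ((m : F) + (((l' : F) + 1) / (2 * g + 1) - 2⁻¹) - ρ) * (pol c z).coeff l' = 0 := by
        linear_combination h10
      exact (mul_eq_zero.1 this).resolve_right h11
    have h13 : (((2 * (g : ℤ) + 1) * m + l' - l : ℤ) : F) = 0 := by
      rw [hρ] at h12
      field_simp at h12
      have h14 : (2 : F) * (((2 * (g : ℤ) + 1) * m + l' - l : ℤ) : F) = 0 := by
        push_cast
        linear_combination h12
      exact (mul_eq_zero.1 h14).resolve_left h2
    have hlz : (l : ℤ) < 2 * g := by exact_mod_cast hly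
    have hlz' : (l' : ℤ) < 2 * g := by exact_mod_cast h9
    have hm1' : (1 : ℤ) ≤ m := by exact_mod_cast hm1
    have hg' : (1 : ℤ) ≤ g := by exact_mod_cast hg
    refine cast_ne (p := p) (F := F) ?_ ?_ h13
    · have : (0 : ℤ) < (2 * (g : ℤ) + 1) * m + l' - l := by nlinarith
      exact this.ne'
    · rw [abs_lt]
      constructor <;> nlinarith

end Pool.Agent.Helper41.BL
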