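import Pool.Agent.Helper41.BL.E
import Pool.Agent.Helper72.BM.EQ

/-!
# Packages L12 (L_EQ) and L13 (L_QfDet)
-/

set_option autoImplicit false

open Polynomial Matrix Finset

namespace Pool.Agent.Helper41.BL

open Pool.Agent.Helper62.BM Pool.Agent.Helper72.BM

variable {F : Type} [Field F]

theorem vand_Qf {n : ℕ} (f : F[X]) (a : Fin n → F) (i j : Fin n) :
    (Matrix.vandermonde a * Qf n f * (Matrix.vandermonde a)ᵀ) i j =
      (∑ l : Fin n, ∑ m : Fin n, (((l : ℕ) : F) - ((m : ℕ) : F)) *
        f.coeff ((l : ℕ) + m + 2) * (a i ^ (l : ℕ) * a j ^ (m : ℕ))) / 2 := by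
  rw [Matrix.mul_apply]
  simp only [Matrix.mul_apply, Finset.sum_mul, Matrix.transpose_apply, Matrix.vandermonde_apply, Qf,
    Matrix.of_apply]
  rw [Finset.sum_comm, Finset.sum_div]
  refine Finset.sum_congr rfl fun l _ => ?_
  rw [Finset.sum_div]
  refine Finset.sum_congr rfl fun m _ => ?_
  ring

theorem vandf_eq (h2 : (2 : F) ≠ 0) {g : ℕ} {f : F[X]} {lam : F} {c : Fin (2 * g) → F}
    (hC : Crit g f lam c) :
    Matrix.vandermonde c * (Em c * Qc f c * (Em c)ᵀ) * (Matrix.vandermonde c)ᵀ =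
      Matrix.vandermonde c * Qf (2 * g) f * (Matrix.vandermonde c)ᵀ := by
  have ha := hC.2.2.1
  have e : Matrix.vandermonde c * (Em c * Qc f c * (Em c)ᵀ) * (Matrix.vandermonde c)ᵀ =
      Matrix.diagonal (dd c) * Qc f c * Matrix.diagonal (dd c) := by
    have e1 := vand_mul c
    have e2 : (Em c)ᵀ * (Matrix.vandermonde c)ᵀ = Matrix.diagonal (dd c) := by
      rw [← Matrix.transpose_mul, e1, Matrix.diagonal_transpose]
    calc Matrix.vandermonde c * (Em c * Qc f c * (Em c)ᵀ) * (Matrix.vandermonde c)ᵀ =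
        (Matrix.vandermonde c * Em c) * Qc f c * ((Em c)ᵀ * (Matrix.vandermonde c)ᵀ) := by
          simp only [Matrix.mul_assoc]
      _ = _ := by rw [e1, e2]
  rw [e]
  ext i j
  rw [Matrix.mul_diagonal, Matrix.diagonal_mul, vand_Qf, Qc, Matrix.of_apply]
  split_ifs with hij
  · subst hij
    have hs : ∑ l : Fin (2 * g), ∑ m : Fin (2 * g), (((l : ℕ) : F) - ((m : ℕ) : F)) *
        f.coeff ((l : ℕ) + m + 2) * (c i ^ (l : ℕ) * c i ^ (m : ℕ)) = 0 := by
      set S := ∑ l : Fin (2 * g), ∑ m : Fin (2 * g), (((l : ℕ) : F) - ((m : ℕ) : F)) *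
        f.coeff ((l : ℕ) + m + 2) * (c i ^ (l : ℕ) * c i ^ (m : ℕ)) with hS
      have : S = -S := by
        conv_lhs => rw [hS, Finset.sum_comm]
        rw [hS, ← Finset.sum_neg_distrib]
        refine Finset.sum_congr rfl fun l _ => ?_
        rw [← Finset.sum_neg_distrib]
        refine Finset.sum_congr rfl fun m _ => ?_
        rw [show (m : ℕ) + l + 2 = l + m + 2 by omega]
        ring
      have h3 : 2 * S = 0 := by linear_combination this
      exact (mul_eq_zero.1 h3).resolve_left h2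
    rw [hs]
    ring
  · have hne : c i - c j ≠ 0 := sub_ne_zero.2 fun h => hij (ha h)
    have key := two_var (2 * g) f hC.1.le (c i) (c j)
    rw [crit_eval hC, crit_eval hC] at key
    have key2 : ∑ l : Fin (2 * g), ∑ m : Fin (2 * g), (((l : ℕ) : F) - ((m : ℕ) : F)) *
        f.coeff ((l : ℕ) + m + 2) * (c i ^ (l : ℕ) * c j ^ (m : ℕ)) =
        -2 * (f.eval (c i) - f.eval (c j)) / (c i - c j) ^ 2 := by
      rw [eq_div_iff (pow_ne_zero _ hne)]
      linear_combination key
    rw [key2, wt_eq, wt_eq]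
    have hi := dd_ne ha i
    have hj := dd_ne ha j
    field_simp
    ring

theorem l_EQ : L_EQ := by
  intro F _ h2 g f lam c hC hl
  have h := vandf_eq h2 hC
  have hV : IsUnit (Matrix.vandermonde c).det := (vand_det_ne hC.2.2.1).isUnit
  have hVT : IsUnit ((Matrix.vandermonde c)ᵀ).det := by rw [Matrix.det_transpose]; exact hV
  have h3 : Matrix.vandermonde c * (Em c * Qc f c * (Em c)ᵀ) =
      Matrix.vandermonde c * Qf (2 * g) f := by
    have := congrArg (fun M => M * ((Matrix.vandermonde c)ᵀ)⁻¹) h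
    simpa only [Matrix.mul_nonsing_inv_cancel_right _ _ hVT] using this
  have := congrArg (fun M => (Matrix.vandermonde c)⁻¹ * M) h3
  simpa only [Matrix.nonsing_inv_mul_cancel_left _ _ hV] using this

theorem l_QfDet : L_QfDet := by
  intro F _ g hg f hf hg1
  have hgt : ∀ k, 2 * g + 1 < k → f.coeff k = 0 := fun k hk =>
    coeff_eq_zero_of_natDegree_lt (by rw [hf]; exact hk)
  have htop : f.coeff (2 * g + 1) ≠ 0 := by
    rw [← hf]
    refine leadingCoeff_ne_zero.2 fun h => ?_
    rw [h, natDegree_zero] at hf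
    omega
  refine ⟨?_, ?_, ?_, ?_⟩
  · refine det_anti _ (fun i j hij => ?_) (fun i j hij => ?_)
    · rw [Qf, Matrix.of_apply, hgt _ (by omega), mul_zero]
    · rw [Qf, Matrix.of_apply]
      have e : (i : ℕ) + j + 2 = 2 * g + 1 := by omega
      rw [e]
      exact mul_ne_zero (cast_half_ne hg hg1 i.2 j.2 (by omega)) htop
  · refine det_anti _ (fun i j hij => ?_) (fun i j hij => ?_)
    · rw [Matrix.submatrix_apply, Qf, Matrix.of_apply]
      simp only [lo, hi]
      rw [hgt _ (by omega), mul_zero]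
    · rw [Matrix.submatrix_apply, Qf, Matrix.of_apply]
      simp only [lo, hi]
      have e : (i : ℕ) + (g + j) + 2 = 2 * g + 1 := by omega
      rw [e]
      have h1 := i.2
      have h2 := j.2
      exact mul_ne_zero (cast_half_ne hg hg1 (by omega) (by omega) (by omega)) htop
  · ext i j
    rw [Matrix.submatrix_apply, Qf, Matrix.of_apply]
    simp only [hi]
    rw [hgt _ (by omega), mul_zero]
    rfl
  · ext i j
    rw [Matrix.transpose_apply, Matrix.neg_apply, Qf, Matrix.of_apply, Matrix.of_apply,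
      show (j : ℕ) + i + 2 = i + j + 2 by omega]
    ring

end Pool.Agent.Helper41.BL
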